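import Mathlib
import Pool.Agent.X280.HP.WeiLaw
import Pool.Agent.N534.XH.Good

/-!
# The normal law of the averages of Nagao's conjecture for random elliptic surfaces

Let `𝓔_c` be the elliptic surface `y² = x³ + A(t) x + B(t)` over the line, where `A` and `B` are polynomials of degrees at most `a` and `b`,
`a, b ≥ 3`, with integer coefficients; `c` is the vector of the coefficients. Nagao's conjecture predicts that the average
`T⁻¹ ∑_{p ≤ T} 𝔄_p(𝓔_c) log p`, `𝔄_p` the average over the fibres at `t ∈ 𝔽_p` of the traces of the Frobenius, tends to minus the rank of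
`𝓔_c` over `ℚ(t)`, and this rank is `0` for almost all `c`.

The theorem: for random `c` in the box `|c_μ| ≤ H` the sum of `w_p 𝔄_p(𝓔_c)` over the primes in a finite set `P` of primes is asymptotically
normally distributed with mean value `0` and variance `∑ w_p²`, and so are the averages over `p ≤ T`, for `T` up to a small power of `H`. The
primes of bad reduction may be left out: for each `p` a set of exceptional residues modulo `p` is given, whose proportion is at most `D / p`.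
-/

set_option autoImplicit false

open MeasureTheory ProbabilityTheory Polynomial

namespace Pool.Agent.Results.MP_1a0ddd_nt.NormalLaw

/-- The coefficients of two polynomials of degrees at most `a` and `b`. -/
abbrev Coeff (a b : ℕ) : Type := Fin (a + 1) ⊕ Fin (b + 1)

/-- The polynomial `A`. -/
noncomputable def polyA {a b : ℕ} (c : Coeff a b → ℤ) : ℤ[X] := ∑ i : Fin (a + 1), C (c (Sum.inl i)) * X ^ (i : ℕ)

/-- The polynomial `B`. -/
noncomputable def polyB {a b : ℕ} (c : Coeff a b → ℤ) : ℤ[X] := ∑ j : Fin (b + 1), C (c (Sum.inr j)) * X ^ (j : ℕ)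

/-- The number of the solutions of `y² = x³ + α x + β` modulo `p`. -/
noncomputable def affinePoints (p : ℕ) (α β : ZMod p) : ℝ :=
  Nat.card {z : ZMod p × ZMod p // z.2 ^ 2 = z.1 ^ 3 + α * z.1 + β}

/-- The trace of the Frobenius on `H¹` of the fibre at `t` of the reduction of the surface modulo `p`. -/
noncomputable def frobTrace {a b : ℕ} (c : Coeff a b → ℤ) (p t : ℕ) : ℝ :=
  p - affinePoints p (((polyA c).eval (t : ℤ) : ℤ) : ZMod p) (((polyB c).eval (t : ℤ) : ℤ) : ZMod p)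

/-- The average `𝔄_p` over the fibres at `t = 0, …, p - 1`. -/
noncomputable def fibralAverage {a b : ℕ} (c : Coeff a b → ℤ) (p : ℕ) : ℝ :=
  (∑ t ∈ Finset.range p, frobTrace c p t) / p

/-- The residue vector of `c` modulo `p`. -/
def residue {ι : Type} (c : ι → ℤ) (p : ℕ) : ι → ZMod p := fun i => (c i : ZMod p)

/-- The primes up to `T`. -/
def primesUpTo (T : ℕ) : Finset ℕ := (Finset.range (T + 1)).filter Nat.Prime

open Classical in
/-- The sum of `w_p 𝔄_p(𝓔_c)` over the primes `p` in `P` such that the residue vector of `c` modulo `p` is not exceptional. -/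
noncomputable def nagaoSum {a b : ℕ} (E : ∀ p : ℕ, Set (Coeff a b → ZMod p)) (w : ℕ → ℝ) (P : Finset ℕ) (c : Coeff a b → ℤ) : ℝ :=
  ∑ p ∈ P.filter (fun p => residue c p ∉ E p), w p * fibralAverage c p

/-- The proportion of the vectors `c` in the box `|c_μ| ≤ H` with the property `Q`. -/
noncomputable def proportion {ι : Type} [Fintype ι] (H : ℕ) (Q : (ι → ℤ) → Prop) : ℝ :=
  ({c : ι → ℤ | (∀ μ, |c μ| ≤ H) ∧ Q c}.ncard : ℝ) / (2 * H + 1 : ℝ) ^ Fintype.card ι

open Pool.Agent.Y722.HS Pool.Agent.X280.BP Pool.Agent.X280.HG Pool.Agent.X280.HP Pool.Agent.N534.XH in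
theorem fibral_eq {a b : ℕ} (c : Coeff a b → ℤ) (p : ℕ) :
    Pool.Agent.Results.MP_1a0ddd_nt.NormalLaw.fibralAverage c p = favg a b p (red p c) :=
  Pool.Agent.X280.HP.fibralAverage_eq c p

open Pool.Agent.Y722.HS Pool.Agent.X280.BP Pool.Agent.X280.HG Pool.Agent.X280.HP Pool.Agent.N534.XH in
theorem weighted (a b : ℕ) (ha : 3 ≤ a) (hb : 3 ≤ b) (E : ∀ p : ℕ, Set (Coeff a b → ZMod p)) (D : ℝ)
    (hE : ∀ p : ℕ, p.Prime → ((E p).ncard : ℝ) * p ≤ D * (p : ℝ) ^ (a + b + 2)) (δ : ℝ) (hδ : 0 < δ) (u ε : ℝ) (hε : 0 < ε) :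
    ∃ K : ℕ, ∀ (P : Finset ℕ) (w : ℕ → ℝ) (y H : ℕ), (∀ p ∈ P, p.Prime ∧ p ≤ y) →
      (∀ p ∈ P, |w p| ≤ 1) → δ * P.card ≤ ∑ p ∈ P, w p ^ 2 → K ≤ P.card → y ^ K ≤ H →
      |proportion H (fun c : Coeff a b → ℤ => nagaoSum E w P c ≤ u * √(∑ p ∈ P, w p ^ 2)) -
        (gaussianReal 0 1).real (Set.Iic u)| ≤ ε := by
  classical
  obtain ⟨C, hC⟩ := ld_favg a b ha hb
  have hcd : Fintype.card (Coeff a b) = a + b + 2 := by
    rw [Fintype.card_sum, Fintype.card_fin, Fintype.card_fin]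
    ring
  have hG : ∀ p : ℕ, p.Prime → ∀ [NeZero p],
      EM p (ib (fun p (x : Coeff a b → ZMod p) => x ∉ E p) p) ≤ D / p := by
    intro p hp _
    refine EM_ib_set E D p ?_
    rw [hcd]
    exact hE p hp
  obtain ⟨K, hK⟩ := good_law hC (by norm_num : (0 : ℝ) < 1 - 0 ^ 2) (fun p (x : Coeff a b → ZMod p) => x ∉ E p) hG 0 hδ u hε
  refine ⟨K, fun P w y H hP hw hvar hcard hH => ?_⟩
  have h1 := hK P w y H hP hw hvar hcard hH
  rw [show ((1 : ℝ) - 0 ^ 2) = 1 by ring, one_mul, zero_mul, zero_add] at h1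
  unfold proportion
  refine le_trans (le_of_eq ?_) h1
  congr 3
  congr 2
  ext c
  simp only [Set.mem_ofPred_eq]
  refine and_congr_right fun _ => ?_
  refine Iff.of_eq (congrArg (fun z => z ≤ u * √(∑ p ∈ P, w p ^ 2)) ?_)
  unfold nagaoSum
  rw [Finset.sum_filter]
  refine Finset.sum_congr rfl fun p _ => ?_
  rw [← fibral_eq]
  have e2 : red p c = residue c p := rfl
  rw [e2]
  split_ifs <;> simp

open Pool.Agent.X280.HG in
/-- **The normal law of the averages of Nagao's conjecture.** -/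
theorem result (a b : ℕ) (ha : 3 ≤ a) (hb : 3 ≤ b) (E : ∀ p : ℕ, Set (Coeff a b → ZMod p)) (D : ℝ)
    (hE : ∀ p : ℕ, p.Prime → ((E p).ncard : ℝ) * p ≤ D * (p : ℝ) ^ (a + b + 2)) (u ε : ℝ) (hε : 0 < ε) :
    (∀ δ : ℝ, 0 < δ → ∃ K : ℕ, ∀ (P : Finset ℕ) (w : ℕ → ℝ) (y H : ℕ), (∀ p ∈ P, p.Prime ∧ p ≤ y) →
      (∀ p ∈ P, |w p| ≤ 1) → δ * P.card ≤ ∑ p ∈ P, w p ^ 2 → K ≤ P.card → y ^ K ≤ H →
      |proportion H (fun c : Coeff a b → ℤ => nagaoSum E w P c ≤ u * √(∑ p ∈ P, w p ^ 2)) -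
        (gaussianReal 0 1).real (Set.Iic u)| ≤ ε) ∧
    ∃ K : ℕ, ∀ T H : ℕ, K ≤ T → T ^ K ≤ H →
      |proportion H (fun c : Coeff a b → ℤ => nagaoSum E (fun p => Real.log p) (primesUpTo T) c / T ≤
        u * (√(∑ p ∈ primesUpTo T, Real.log p ^ 2) / T)) - (gaussianReal 0 1).real (Set.Iic u)| ≤ ε := by
  classical
  refine ⟨fun δ hδ => weighted a b ha hb E D hE δ hδ u ε hε, ?_⟩
  obtain ⟨K1, hK1⟩ := weighted a b ha hb E D hE (1 / 8) (by norm_num) u ε hε
  obtain ⟨K2, hK2⟩ := Filter.eventually_atTop.1 (many_primes.and log_weights)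
  refine ⟨max (max K1 K2) (K1 ^ 2 + 3), fun T H hT hH => ?_⟩
  have hT1 : K2 ≤ T := (le_max_right _ _).trans ((le_max_left _ _).trans hT)
  have hT2 : K1 ^ 2 + 3 ≤ T := (le_max_right _ _).trans hT
  have hT0 : (0 : ℝ) < T := by exact_mod_cast (by omega : 0 < T)
  obtain ⟨h1, h2⟩ := hK2 T hT1
  have hlog : 0 < Real.log T := Real.log_pos (by exact_mod_cast (by omega : 1 < T))
  have hPP : primesUpTo T = Pool.Agent.X280.HG.primesUpTo T := rfl
  have hcard : K1 ≤ (primesUpTo T).card := by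
    have h3 : (K1 : ℝ) ≤ √(T : ℝ) := by
      apply Real.le_sqrt_of_sq_le
      exact_mod_cast (by omega : K1 ^ 2 ≤ T)
    have h4 : 0 ≤ √(T : ℝ) := Real.sqrt_nonneg _
    have h5 : (K1 : ℝ) ≤ ((Pool.Agent.X280.HG.primesUpTo T).card : ℝ) := by linarith
    rw [hPP]
    exact_mod_cast h5
  have hfin := hK1 (primesUpTo T) (fun p => Real.log p / Real.log T) T H
    (fun p hp => (((mem_primesUpTo.1 hp)).symm)) (fun p hp => by
      have h3 := mem_primesUpTo.1 hp
      have hp1 : (1 : ℝ) ≤ p := by exact_mod_cast h3.2.one_lt.le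
      rw [abs_of_nonneg (div_nonneg (Real.log_nonneg hp1) hlog.le), div_le_one hlog]
      exact Real.log_le_log (by linarith) (by exact_mod_cast h3.1)) h2 hcard
    ((Nat.pow_le_pow_right (by omega) ((le_max_left _ _).trans (le_max_left _ _))).trans hH)
  refine le_trans (le_of_eq ?_) hfin
  congr 2
  unfold proportion
  congr 3
  ext c
  simp only [Set.mem_ofPred_eq]
  refine and_congr_right fun _ => ?_
  have e1 : nagaoSum E (fun p => Real.log p) (primesUpTo T) c / T =
      Real.log T / T * nagaoSum E (fun p => Real.log p / Real.log T) (primesUpTo T) c := by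
    unfold nagaoSum
    rw [div_mul_eq_mul_div, Finset.mul_sum]
    congr 1
    refine Finset.sum_congr rfl fun p _ => ?_
    field_simp
  have e3 : √(∑ p ∈ primesUpTo T, (Real.log p / Real.log T) ^ 2) =
      √(∑ p ∈ primesUpTo T, Real.log p ^ 2) / Real.log T := by
    have e4 : ∑ p ∈ primesUpTo T, (Real.log p / Real.log T) ^ 2 =
        (∑ p ∈ primesUpTo T, Real.log p ^ 2) / Real.log T ^ 2 := by
      simp only [div_pow]
      rw [← Finset.sum_div]
    rw [e4, Real.sqrt_div' _ (sq_nonneg _), Real.sqrt_sq hlog.le]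
  rw [e1, e3]
  obtain ⟨σ, hσ⟩ : ∃ σ : ℝ, σ = √(∑ p ∈ primesUpTo T, Real.log p ^ 2) := ⟨_, rfl⟩
  rw [← hσ]
  have e5 : u * (σ / T) = Real.log T / T * (u * (σ / Real.log T)) := by
    field_simp
  rw [e5]
  have h7 : 0 < Real.log T / T := by positivity
  exact ⟨fun h => le_of_mul_le_mul_left h h7, fun h => mul_le_mul_of_nonneg_left h h7.le⟩

end Pool.Agent.Results.MP_1a0ddd_nt.NormalLaw
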