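import Pool.Agent.N842.TX.Law2

/-!
# The Tauberian generalized Nagao conjecture for almost all pencils of plane curves over a number field

Let `K` be a number field and `ω_0, ..., ω_(g-1)` elements of its ring of integers such that `1` is a linear combination of them with
integral coefficients, for instance an integral basis.  Let `G` be a monic polynomial of degree `d` with integral coefficients.
We consider the pencils of plane curves of degree `d` with the equations

  `x ^ d G(z / x) + ∑ c_α x ^ α_0 z ^ α_1 t ^ α_2 = 0`,   `α_0 + α_1 < d`, `α_2 ≤ E`,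

over the line with the coordinate `t`; the coefficients are `c_α = ∑ m_(α,j) ω_j` with integers `m_(α,j) ≥ 0` which arise from
arbitrary integers by changing a few digits.

Let `G` be separable and `d ≥ 3`.  The points at infinity of the generic fibre `X / K(t)` are the roots of `G`; they give a group of
divisor classes of degree `0` of rank `s - 1` over `K(t)` for a general pencil of the family, where `s` is the number of the
irreducible factors of `G` over `K`, and `s - 1` is the rank of the group of the question for a general pencil.  The theorem is that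
`Σ_T(𝔄)` is `-(s - 1) T` up to `ε T`, in the range of the theorem, for almost all pencils, with a power saving for the difference of
`𝔄_v` and of its part `1 - n_v` that comes from the points at infinity.

For `v` of good reduction, and if the surface has irregularity `0` (so that the trace `B` is `0`), we have
`|𝔄_v - (1 - n_v)| ≤ C` by Deligne's theorem, where `C` depends only on `d` and `E`, so that the truncation below does not change
`𝔄_v` if `q_v` is larger than a number which depends only on `d`, `E` and `η > 0`.  The fibre at `t = ∞`, which is left out,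
changes `𝔄_v` by `O(q_v ^ (-1 / 2))`.
-/

set_option autoImplicit false

namespace Pool.Agent.Results.MP_1a0ddd_nt.PlanePencils

open Finset NumberField IsDedekindDomain

/-- The exponents `(α_0, α_1, α_2)` with `α_0 + α_1 < d` and `α_2 ≤ E`. -/
abbrev Exponent (d E : ℕ) : Type := {α : Fin 3 → ℕ // α 0 + α 1 < d ∧ α 2 ≤ E}

/-- The coefficients `c_i = ∑ m_(i,j) ω_j`. -/
def coeff {R : Type} [CommRing R] {g D : ℕ} (ω : Fin g → R) (m : Fin (D * g) → ℕ) (i : Fin D) : R :=
  ∑ j, (m (finProdFinEquiv (i, j)) : R) * ω j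

/-- The number of the roots of `G` in the field `κ`. -/
noncomputable def rootCount (G : Polynomial ℤ) (κ : Type) [Field κ] : ℕ :=
  Nat.card {r : κ // G.eval₂ (Int.castRingHom κ) r = 0}

/-- The number of the (monic) irreducible factors of `G` over the field `K`. -/
noncomputable def factorCount (G : Polynomial ℤ) (K : Type) [Field K] : ℕ :=
  Nat.card {P : Polynomial K // P.Monic ∧ Irreducible P ∧ P ∣ G.map (Int.castRingHom K)}

section
variable (G : Polynomial ℤ) {E D : ℕ} (e : Fin D ≃ Exponent G.natDegree E)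

/-- The value at `(x, z, t)` of the polynomial `x ^ d G(z / x) + ∑ u_k x ^ α_0 z ^ α_1 t ^ α_2` with `α = e k`, where `d` is the
degree of `G`, and `e` is an enumeration of the exponents. -/
def value {κ : Type} [Field κ] (u : Fin D → κ) (x z t : κ) : κ :=
  ∑ j ∈ range (G.natDegree + 1), (G.coeff j : κ) * (x ^ (G.natDegree - j) * z ^ j) +
    ∑ k, u k * (x ^ (e k).1 0 * z ^ (e k).1 1 * t ^ (e k).1 2)

/-- The number of the points over the finite field `κ` of the fibre at `t`, the plane curve of degree `d`: the number of the zeros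
`(x, z)` of the polynomial, and the number of the points at infinity, which are the roots of `G` in `κ`. -/
noncomputable def points {κ : Type} [Field κ] (u : Fin D → κ) (t : κ) : ℕ :=
  Nat.card {P : κ × κ // value G e u P.1 P.2 t = 0} + rootCount G κ

/-- The average of the traces `q + 1 - #(fibre at t)` over all `t ∈ κ`. -/
noncomputable def average {κ : Type} [Field κ] (u : Fin D → κ) : ℝ :=
  (∑ᶠ t : κ, ((Nat.card κ : ℝ) + 1 - points G e u t)) / Nat.card κ

end

section
variable {K : Type} [Field K] [NumberField K]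

/-- The residue field of the prime ideal `v`. -/
def Residue (v : HeightOneSpectrum (𝓞 K)) : Type := 𝓞 K ⧸ v.asIdeal

noncomputable instance (v : HeightOneSpectrum (𝓞 K)) : Field (Residue v) :=
  haveI : v.asIdeal.IsMaximal := v.isMaximal
  Ideal.Quotient.field v.asIdeal

/-- The reduction modulo `v`. -/
noncomputable def reduction (v : HeightOneSpectrum (𝓞 K)) : 𝓞 K →+* Residue v := Ideal.Quotient.mk v.asIdeal

/-- The absolute norm `q_v` of the prime ideal `v`. -/
noncomputable def norm (v : HeightOneSpectrum (𝓞 K)) : ℝ := Ideal.absNorm v.asIdeal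

/-- The sum `∑ F(v) log(q_v)` over the prime ideals with `q_v ≤ T`. -/
noncomputable def logSum (F : HeightOneSpectrum (𝓞 K) → ℝ) (T : ℕ) : ℝ :=
  ∑ᶠ v ∈ {v : HeightOneSpectrum (𝓞 K) | Ideal.absNorm v.asIdeal ≤ T}, F v * Real.log (norm v)

variable {g : ℕ} (ω : Fin g → 𝓞 K) (G : Polynomial ℤ) {E D : ℕ} (e : Fin D ≃ Exponent G.natDegree E)

/-- The average `𝔄_v` of the traces of the fibres of the reduction of the pencil modulo `v`. -/
noncomputable def fibreAverage (m : Fin (D * g) → ℕ) (v : HeightOneSpectrum (𝓞 K)) : ℝ :=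
  average G e (fun k => reduction v (coeff ω m k))

/-- The number `1 - n_v`, where `n_v` is the number of the points at infinity modulo `v`. -/
noncomputable def centre (v : HeightOneSpectrum (𝓞 K)) : ℝ := 1 - rootCount G (Residue v)

open Classical in
/-- `𝔄_v` if `|𝔄_v - (1 - n_v)| ≤ q_v ^ η`, and `1 - n_v` otherwise. -/
noncomputable def truncated (η : ℝ) (m : Fin (D * g) → ℕ) (v : HeightOneSpectrum (𝓞 K)) : ℝ :=
  if |fibreAverage ω G e m v - centre G v| ≤ norm v ^ η then fibreAverage ω G e m v else centre G v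

end

/-- The digit number `i` (counted from the right, beginning with `0`) of `n` in base `b`. -/
def digit (b i n : ℕ) : ℕ := n / b ^ i % b

/-- The number which arises from the number `N` with at most `L` digits in base `b`, if for every `i ∈ S`
the digit number `i` is replaced by `f i`. -/
def change (b L N : ℕ) (f : ℕ → ℕ) (S : Finset ℕ) : ℕ :=
  ∑ i ∈ range L, (if i ∈ S then f i else digit b i N) * b ^ i

open Classical in
/-- The number of the choices of `r j` of `L j` positions for all `j` for which the tuple of the numbers obtained by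
changing the digits of the `N j` at the chosen positions (according to `f j`) does not have the property `P`. -/
noncomputable def exceptions {d : ℕ} (b : ℕ) (L r N : Fin d → ℕ) (f : Fin d → ℕ → ℕ) (P : (Fin d → ℕ) → Prop) : ℕ :=
  ((Fintype.piFinset (fun j => powersetCard (r j) (range (L j)))).filter
    (fun S => ¬ P (fun j => change b (L j) (N j) (f j) (S j)))).card

lemma exc_eq {d : ℕ} (b : ℕ) (L r N : Fin d → ℕ) (f : Fin d → ℕ → ℕ) (P : (Fin d → ℕ) → Prop) :
    exceptions b L r N f P = Pool.Agent.Y57.FD.exceptions b L r N f P := rfl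

section
variable {K : Type} [Field K] [NumberField K] {g : ℕ} (ω : Fin g → 𝓞 K) (G : Polynomial ℤ) {E D : ℕ} (e : Fin D ≃ Exponent G.natDegree E)

lemma logSum_eq (F : HeightOneSpectrum (𝓞 K) → ℝ) (T : ℕ) :
    logSum F T = ∑ v ∈ Pool.Agent.N842.HS.VT K T, F v * Real.log (Ideal.absNorm v.asIdeal) := by
  have h2 : {v : HeightOneSpectrum (𝓞 K) | Ideal.absNorm v.asIdeal ≤ T} =
      ((Pool.Agent.N842.HS.VT K T : Finset (HeightOneSpectrum (𝓞 K))) : Set (HeightOneSpectrum (𝓞 K))) := by
    ext v
    rw [mem_coe, Pool.Agent.N842.HS.mem_VT]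
    exact Iff.rfl
  unfold logSum
  rw [h2, finsum_mem_coe_finset]
  rfl

lemma truncated_eq (η : ℝ) (m : Fin (D * g) → ℕ) (v : HeightOneSpectrum (𝓞 K)) :
    truncated ω G e η m v - centre G v = Pool.Agent.N842.TX.Fv (d := G.natDegree) e G η v (Pool.Agent.N842.HS.cf ω m) := by
  classical
  have h1 : Pool.Agent.N842.TX.Fv (d := G.natDegree) e G η v (Pool.Agent.N842.HS.cf ω m) =
      Pool.Agent.N842.TX.tc ((Nat.card (Pool.Agent.N842.HS.Res v) : ℝ) ^ η) (fibreAverage ω G e m v - 1 + rootCount G (Residue v)) := rfl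
  have h2 : fibreAverage ω G e m v - 1 + rootCount G (Residue v) = fibreAverage ω G e m v - centre G v := by
    unfold centre
    ring
  have h3 : (Nat.card (Pool.Agent.N842.HS.Res v) : ℝ) = norm v := by
    rw [Pool.Agent.N842.HS.card_Res]
    rfl
  rw [h1, h2, h3]
  unfold truncated Pool.Agent.N842.TX.tc
  split_ifs with h
  · rfl
  · rw [sub_self]

/-- **The Tauberian generalized Nagao conjecture for almost all pencils of plane curves.**  Let `G` be monic of degree `d` with `s`
irreducible factors over `K`, `h` even with `2 ≤ h ≤ min(d, E + 1)`.  Take arbitrary numbers `N_j < β ^ (L_j)`, and change the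
digits at `r_j` of the `L_j` places of each.  Then for all but a proportion `y ^ (-A)` of the choices of the places, for all `T`
with `y ≤ T ≤ exp(c r_j)`,

`|∑_(q_v ≤ T) w(v) (𝔄'_v - (1 - n_v)) log(q_v)| ≤ T ^ (1/2 + 1/(2h) + δ)` for all weights `w` of a set with at most `T ^ B`
elements, and `|T ^ (-1) ∑_(q_v ≤ T) 𝔄'_v log(q_v) + (s - 1)| ≤ ε`. -/
theorem result (hG : G.Monic) (hω : (1 : 𝓞 K) ∈ Submodule.span ℤ (Set.range ω)) (h : ℕ) (hh : 2 ≤ h) (heven : Even h)
    (hd : h ≤ G.natDegree) (hE : h ≤ E + 1) (β : ℕ) (hβ : 2 ≤ β) (δ ε : ℝ) (hδ : 0 < δ) (hε : 0 < ε) (A B : ℕ) :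
    ∃ c : ℝ, 0 < c ∧ ∃ y₀ : ℕ, ∀ (L r : Fin (D * g) → ℕ) (y : ℕ), (∀ i, 2 * r i ≤ L i) → y₀ ≤ y →
    ∀ N : Fin (D * g) → ℕ, (∀ i, N i < β ^ L i) →
    ∀ f : Fin (D * g) → ℕ → ℕ, (∀ i j, f i j < β ∧ f i j ≠ digit β j (N i)) →
    ∀ W : ℕ → Set (HeightOneSpectrum (𝓞 K) → ℝ), (∀ T, (W T).Finite ∧ (W T).ncard ≤ T ^ B) → (∀ T, ∀ w ∈ W T, ∀ v, |w v| ≤ 1) →
    (exceptions β L r N f (fun m => ∀ T : ℕ, y ≤ T → (∀ i, (T : ℝ) ≤ Real.exp (c * r i)) →
      (∀ w ∈ W T, |logSum (fun v => w v * (truncated ω G e (1 / (2 * (h : ℝ))) m v - centre G v)) T| ≤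
        (T : ℝ) ^ (1 / 2 + 1 / (2 * (h : ℝ)) + δ)) ∧
      |logSum (truncated ω G e (1 / (2 * (h : ℝ))) m) T / T + ((factorCount G K : ℝ) - 1)| ≤ ε) : ℝ) ≤
        1 / (y : ℝ) ^ A * ∏ i, ((L i).choose (r i) : ℝ) := by
  obtain ⟨c, hc, y₀, hmain⟩ := Pool.Agent.N842.TX.law2 (K := K) (d := G.natDegree) e G hG hh heven hd hE β g ω hω hβ δ ε hδ hε A B
  refine ⟨c, hc, y₀, fun L r y hrL hy N hN f hf W hW hW1 => ?_⟩
  rw [exc_eq]
  refine hmain L r y hrL hy N hN f hf W hW hW1 _ fun m hm T hyT hTr => ?_
  obtain ⟨h1, h2⟩ := hm T hyT hTr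
  constructor
  · intro w hw
    refine le_trans (le_of_eq ?_) (h1 w hw)
    rw [logSum_eq]
    congr 1
    refine sum_congr rfl fun v _ => ?_
    rw [truncated_eq]
    ring
  · refine le_trans (le_of_eq ?_) h2
    rw [logSum_eq]
    congr 3
    refine sum_congr rfl fun v _ => ?_
    have h3 := truncated_eq ω G e (1 / (2 * (h : ℝ))) m v
    have h4 : Pool.Agent.N842.TX.At (d := G.natDegree) e G (1 / (2 * (h : ℝ))) v (Pool.Agent.N842.HS.cf ω m) =
        centre G v + Pool.Agent.N842.TX.Fv (d := G.natDegree) e G (1 / (2 * (h : ℝ))) v (Pool.Agent.N842.HS.cf ω m) := rfl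
    rw [h4, ← h3]
    ring

end

end Pool.Agent.Results.MP_1a0ddd_nt.PlanePencils
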