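import Pool.Agent.N647.NG.NagN
import Pool.Agent.N647.NG.Expl

/-!
# The Tauberian form of Nagao's conjecture over number fields for almost all members of thin sequences of fibrations

Let `K` be a number field, `F₀` and `h_1, ..., h_D` polynomials in `t_1, ..., t_m` and `x` over its ring of integers, `F₀` monic of
odd degree in `x`, and the `h_i` of smaller degree in `x`.  The fibrations `y² = F_c(t, x)` over the affine space with the
coordinates `t`, `F_c = F₀ + ∑ c_i h_i`, have irreducible fibres with one point at infinity, and the trace of the Frobenius on `H¹` of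
the fibre over a point `t` over the residue field with `q_v` elements is `q_v - #{(x, y) : y² = F_c(t, x)}`.  The average of these
traces over all `t` is the number `𝔄_v` of the problem.  The starting result
`Pool.Agent.Results.MP_1a0ddd_nt.HyperellipticSystems` is about the rational numbers and the mean square over all members of a box.

Here the coefficients are `c_i = ∑ ⌊P_(i,j)(s)⌋ ω_j` where the `P_(i,j)` are generalised polynomials and `s` is an integer, or a
prime.  So there is one parameter `s` only: for `s ≤ N` only `N` of the about `N ^ (the sum of the leading exponents)` members of the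
corresponding box occur.  The sums of `(𝔄_v + r) log(q_v)` over ALL prime ideals `v` with `q_v ≤ T` (also those of higher degree), with
arbitrary weights from a set of at most `T ^ B` weights, and without an arbitrary set of bad primes, are `O(T ^ (1 / 2 + δ))` for all
`T ≤ N ^ κ` simultaneously, with very few exceptions `s`.

Method: by exponential sums the vectors of the integer parts are uniformly distributed modulo all moduli up to a power of `N`, over
the integers and over the primes (`Pool.Agent.N666.TM.fl_well`); high moments of sums of local functions which are as large as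
`√q_v` (the bound of Weil, `Pool.Agent.H341R2.Sharp`) but have bounded second moments (`Pool.Agent.N647.NG`).
-/

set_option autoImplicit false

namespace Pool.Agent.Results.MP_1a0ddd_nt.ThinSequences

open Finset Polynomial NumberField IsDedekindDomain

section
variable {K : Type} [Field K] [NumberField K] {m D g : ℕ}

/-- The coefficients `c_i = ∑ n_(i,j) ω_j`. -/
def coeff (ω : Fin g → 𝓞 K) (n : Fin (D * g) → ℕ) (i : Fin D) : 𝓞 K := ∑ j, (n (finProdFinEquiv (i, j)) : 𝓞 K) * ω j

/-- The polynomial `F_c = F₀ + ∑ c_i h_i`, in the variable `x` over the ring of the polynomials in `t_1, ..., t_m`. -/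
noncomputable def member (F₀ : (MvPolynomial (Fin m) (𝓞 K))[X]) (h : Fin D → (MvPolynomial (Fin m) (𝓞 K))[X]) (c : Fin D → 𝓞 K) :
    (MvPolynomial (Fin m) (𝓞 K))[X] := F₀ + ∑ i, C (MvPolynomial.C (c i)) * h i

/-- The residue field of the prime ideal `v`. -/
abbrev Residue (v : HeightOneSpectrum (𝓞 K)) : Type := 𝓞 K ⧸ v.asIdeal

/-- The absolute norm `q_v`. -/
noncomputable def norm (v : HeightOneSpectrum (𝓞 K)) : ℝ := Ideal.absNorm v.asIdeal

/-- The value `F(t, x)` at the point `P = (t, x)` over the residue field of `v`. -/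
noncomputable def val (v : HeightOneSpectrum (𝓞 K)) (F : (MvPolynomial (Fin m) (𝓞 K))[X]) (P : (Fin m → Residue v) × Residue v) : Residue v :=
  (F.map (MvPolynomial.eval₂Hom (Ideal.Quotient.mk v.asIdeal) P.1)).eval P.2

/-- The trace of the Frobenius on `H¹` of the fibre `y² = F(t, x)` over the point `t`: the number of the points of this curve is
`q_v + 1 - trace`, and there is one point at infinity. -/
noncomputable def trace (v : HeightOneSpectrum (𝓞 K)) (F : (MvPolynomial (Fin m) (𝓞 K))[X]) (t : Fin m → Residue v) : ℝ :=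
  norm v - Nat.card {z : Residue v × Residue v // z.2 ^ 2 = val v F (t, z.1)}

/-- The average `𝔄_v` of the traces over all points `t` of the affine space over the residue field. -/
noncomputable def average (F : (MvPolynomial (Fin m) (𝓞 K))[X]) (v : HeightOneSpectrum (𝓞 K)) : ℝ :=
  (∑ᶠ t : Fin m → Residue v, trace v F t) / norm v ^ m

/-- The sum of `w(v) (𝔄_v + r) log(q_v)` over the prime ideals `v ∉ R` with `q_v ≤ T`. -/
noncomputable def nagaoSum (F : (MvPolynomial (Fin m) (𝓞 K))[X]) (r : ℝ) (w : HeightOneSpectrum (𝓞 K) → ℝ) (T : ℕ)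
    (R : Set (HeightOneSpectrum (𝓞 K))) : ℝ :=
  ∑ᶠ v ∈ {v : HeightOneSpectrum (𝓞 K) | Ideal.absNorm v.asIdeal ≤ T ∧ v ∉ R}, w v * ((average F v + r) * Real.log (norm v))

/-- The values `h_i(P)` at a point `P` over the residue field outside the base locus are not a multiple of the values `h_i(Q)` at
another point `Q`. -/
def Separated (v : HeightOneSpectrum (𝓞 K)) (h : Fin D → (MvPolynomial (Fin m) (𝓞 K))[X]) : Prop :=
  ∀ P Q : (Fin m → Residue v) × Residue v, P ≠ Q → (∃ i, val v (h i) P ≠ 0) → ¬ ∃ l : Residue v, ∀ i, val v (h i) P = l * val v (h i) Q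

/-- The number of the points `P` over the residue field in the base locus (the common zeros of the `h_i`). -/
noncomputable def basePoints (v : HeightOneSpectrum (𝓞 K)) (h : Fin D → (MvPolynomial (Fin m) (𝓞 K))[X]) : ℝ :=
  Nat.card {P : (Fin m → Residue v) × Residue v // ∀ i, val v (h i) P = 0}

/-- The number of the points `(P, y)` over the residue field with `P` in the base locus and `y² = F₀(P)`. -/
noncomputable def coverPoints (v : HeightOneSpectrum (𝓞 K)) (F₀ : (MvPolynomial (Fin m) (𝓞 K))[X])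
    (h : Fin D → (MvPolynomial (Fin m) (𝓞 K))[X]) : ℝ :=
  Nat.card {P : ((Fin m → Residue v) × Residue v) × Residue v // (∀ i, val v (h i) P.1 = 0) ∧ P.2 ^ 2 = val v F₀ P.1}

end

/-- `c` is the largest exponent of the generalised polynomial `∑ a x s ^ x`, `x ∈ G`; it is positive and not an integer and has a
positive coefficient. -/
def Admissible (G : Finset ℝ) (a : ℝ → ℝ) (c : ℝ) : Prop :=
  c ∈ G ∧ (∀ x ∈ G, x ≤ c) ∧ 0 < c ∧ (∀ n : ℕ, c ≠ n) ∧ 0 < a c

/-- The integer part `⌊P_j(s)⌋` of the value of the generalised polynomial number `j` (and `0` if the value is negative, which is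
the case for finitely many `s` only). -/
noncomputable def value {d : ℕ} (G : Fin d → Finset ℝ) (a : Fin d → ℝ → ℝ) (s : ℕ) (j : Fin d) : ℕ :=
  ⌊∑ x ∈ G j, a j x * (s : ℝ) ^ x⌋₊

section
variable {K : Type} [Field K] [NumberField K] {m D g : ℕ}

/-- For all `T` with `y ≤ T ≤ N ^ κ`, all weights `w ∈ W T` and all sets `R` of prime ideals which divide `Z(c)`, the sum of
`w(v) (𝔄_v + r) log(q_v)` over the prime ideals `v ∉ R` with `q_v ≤ T` is at most `T ^ (1 / 2 + δ)` in absolute value. -/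
def Good (ω : Fin g → 𝓞 K) (F₀ : (MvPolynomial (Fin m) (𝓞 K))[X]) (h : Fin D → (MvPolynomial (Fin m) (𝓞 K))[X]) (r : ℝ)
    (Z : MvPolynomial (Fin D) (𝓞 K)) (δ κ : ℝ) (y N : ℕ) (W : ℕ → Set (HeightOneSpectrum (𝓞 K) → ℝ)) (n : Fin (D * g) → ℕ) : Prop :=
  ∀ T : ℕ, y ≤ T → (T : ℝ) ≤ (N : ℝ) ^ κ → ∀ w ∈ W T, ∀ R : Set (HeightOneSpectrum (𝓞 K)),
    (∀ v ∈ R, MvPolynomial.eval (coeff ω n) Z ∈ v.asIdeal) →
      |nagaoSum (member F₀ h (coeff ω n)) r w T R| ≤ (T : ℝ) ^ (1 / 2 + δ)

open Classical in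
/-- For all generalised polynomials `P_j(s) = ∑ a j x s ^ x` with distinct leading exponents which are positive and not integers and
have positive coefficients, all `δ > 0`, `A`, `B` there are `κ > 0` and `y₀` such that for all `y ≥ y₀`, all `N` and all sets `W T`
of at most `T ^ B` weights with values in `[-1, 1]`: the member with the numbers `n_j = ⌊P_j(s)⌋` is `Good` for all integers `s` in
`(N, 2 N]` with at most `N / y ^ A` exceptions, and for all primes `s` in `(N, 2 N]` with the exception of at most a proportion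
`1 / y ^ A` of them. -/
def Holds (ω : Fin g → 𝓞 K) (F₀ : (MvPolynomial (Fin m) (𝓞 K))[X]) (h : Fin D → (MvPolynomial (Fin m) (𝓞 K))[X]) (r : ℝ)
    (Z : MvPolynomial (Fin D) (𝓞 K)) : Prop :=
  ∀ (G : Fin (D * g) → Finset ℝ) (a : Fin (D * g) → ℝ → ℝ) (c : Fin (D * g) → ℝ), (∀ j, Admissible (G j) (a j) (c j)) →
    Function.Injective c → ∀ δ : ℝ, 0 < δ → ∀ A B : ℕ,
    ∃ κ : ℝ, 0 < κ ∧ ∃ y₀ : ℕ, ∀ y N : ℕ, y₀ ≤ y → ∀ W : ℕ → Set (HeightOneSpectrum (𝓞 K) → ℝ),
      (∀ T, (W T).Finite ∧ (W T).ncard ≤ T ^ B) → (∀ T, ∀ w ∈ W T, ∀ v, |w v| ≤ 1) →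
      (((Ioc N (2 * N)).filter fun s => ¬ Good ω F₀ h r Z δ κ y N W (value G a s)).card : ℝ) ≤ 1 / (y : ℝ) ^ A * N ∧
      ((((Ioc N (2 * N)).filter Nat.Prime).filter fun s => ¬ Good ω F₀ h r Z δ κ y N W (value G a s)).card : ℝ) ≤
        1 / (y : ℝ) ^ A * ((Ioc N (2 * N)).filter Nat.Prime).card

lemma average_eq (F : (MvPolynomial (Fin m) (𝓞 K))[X]) (v : HeightOneSpectrum (𝓞 K)) :
    average F v = Pool.Agent.N647.NG.AA (Pool.Agent.N647.NG.mkv v) F := by
  have hfin := Pool.Agent.N647.NG.quot_finite v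
  let ft : Fintype (𝓞 K ⧸ v.asIdeal) := Fintype.ofFinite _
  have hq : norm v = Nat.card (𝓞 K ⧸ v.asIdeal) := by
    unfold norm
    rw [Pool.Agent.N842.HS.norm_card]
  have hq1 : 1 ≤ norm v := Pool.Agent.N647.NG.q_one v
  unfold average Pool.Agent.N647.NG.AA
  rw [finsum_eq_sum_of_fintype, ← hq]
  have h1 : (Pool.Agent.N647.NG.pts (Pool.Agent.N647.NG.mkv v) F : ℝ) =
      ∑ t : Fin m → Residue v, (Nat.card {z : Residue v × Residue v // z.2 ^ 2 = val v F (t, z.1)} : ℝ) := by
    have e : {P : (Fin m → 𝓞 K ⧸ v.asIdeal) × (𝓞 K ⧸ v.asIdeal) × (𝓞 K ⧸ v.asIdeal) //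
        P.2.2 ^ 2 = (Pool.Agent.N647.NG.ev (Pool.Agent.N647.NG.mkv v) P.1 F).eval P.2.1} ≃
        (Σ t : Fin m → Residue v, {z : Residue v × Residue v // z.2 ^ 2 = val v F (t, z.1)}) :=
      { toFun := fun P => ⟨P.1.1, ⟨P.1.2, P.2⟩⟩
        invFun := fun Q => ⟨(Q.1, Q.2.1), Q.2.2⟩
        left_inv := fun _ => rfl
        right_inv := fun _ => rfl }
    unfold Pool.Agent.N647.NG.pts
    rw [Nat.card_congr e, Nat.card_sigma]
    push_cast
    rfl
  rw [h1]
  unfold trace
  rw [sum_sub_distrib, sum_const, card_univ, Fintype.card_fun, Fintype.card_fin, nsmul_eq_mul]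
  have h2 : ((Fintype.card (Residue v) ^ m : ℕ) : ℝ) = norm v ^ m := by
    rw [hq, Nat.card_eq_fintype_card]
    push_cast
    rfl
  rw [h2, sub_div, mul_div_cancel_left₀ _ (by positivity)]

lemma nagaoSum_eq (F : (MvPolynomial (Fin m) (𝓞 K))[X]) (r : ℝ) (w : HeightOneSpectrum (𝓞 K) → ℝ) (T : ℕ)
    (R : Set (HeightOneSpectrum (𝓞 K))) [DecidablePred (fun v => v ∉ R)] :
    nagaoSum F r w T R = ∑ v ∈ (Pool.Agent.N842.HS.VT K T).filter (fun v => v ∉ R),
      w v * ((Pool.Agent.N647.NG.AA (Pool.Agent.N647.NG.mkv v) F + r) * Real.log (Ideal.absNorm v.asIdeal)) := by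
  classical
  have h1 : {v : HeightOneSpectrum (𝓞 K) | Ideal.absNorm v.asIdeal ≤ T ∧ v ∉ R} =
      (((Pool.Agent.N842.HS.VT K T).filter (fun v => v ∉ R) : Finset (HeightOneSpectrum (𝓞 K))) : Set (HeightOneSpectrum (𝓞 K))) := by
    ext v
    rw [mem_coe, mem_filter, Pool.Agent.N842.HS.mem_VT]
    exact Iff.rfl
  unfold nagaoSum
  rw [h1, finsum_mem_coe_finset]
  refine sum_congr rfl fun v _ => ?_
  rw [average_eq]
  rfl

lemma g_pos (ω : Fin g → 𝓞 K) (hω : Submodule.span ℤ (Set.range ω) = ⊤) : 1 ≤ g := by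
  rcases Nat.eq_zero_or_pos g with h0 | h0
  · subst h0
    rw [Set.range_eq_empty, Submodule.span_empty] at hω
    have h1 : (1 : 𝓞 K) ∈ (⊥ : Submodule ℤ (𝓞 K)) := by
      rw [hω]
      exact Submodule.mem_top
    rw [Submodule.mem_bot] at h1
    exact absurd h1 one_ne_zero
  · exact h0

theorem holds_main (hm : 1 ≤ m) (hD : 1 ≤ D) (ω : Fin g → 𝓞 K) (hω : Submodule.span ℤ (Set.range ω) = ⊤)
    (F₀ : (MvPolynomial (Fin m) (𝓞 K))[X]) (h : Fin D → (MvPolynomial (Fin m) (𝓞 K))[X])
    (hF : F₀.Monic) (ho : Odd F₀.natDegree) (hh : ∀ i, (h i).natDegree < F₀.natDegree) (r C₀ : ℝ)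
    (S : Set (HeightOneSpectrum (𝓞 K))) (hS : S.Finite) (hs : ∀ v ∉ S, Separated v h)
    (hb : ∀ v ∉ S, |coverPoints v F₀ h - basePoints v h - r * norm v ^ m| ≤ C₀ * (norm v ^ m / Real.sqrt (norm v)))
    (Z : MvPolynomial (Fin D) (𝓞 K)) (hZ : Z ≠ 0) : Holds ω F₀ h r Z := by
  classical
  intro G a c ha hc δ hδ A B
  obtain ⟨g', hg'⟩ := ho
  have hDg : 1 ≤ D * g := Nat.one_le_iff_ne_zero.2 (Nat.mul_ne_zero (by omega) (by have := g_pos ω hω; omega))
  obtain ⟨κ, hκ, y₀, h1⟩ := Pool.Agent.N647.NG.nagN hm F₀ h hF hg' (fun i => by rw [← hg']; exact hh i) r C₀ S hS hs hb Z hZ ω hω hDg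
    (G := G) (a := a) (c := c) ha hc δ hδ A B
  refine ⟨κ, hκ, y₀, fun y N hy W hW hW1 => ?_⟩
  refine h1 y N hy W hW hW1 (fun n => Good ω F₀ h r Z δ κ y N W n) fun n hn T hyT hTN w hw R hR => ?_
  rw [nagaoSum_eq]
  exact hn T hyT hTN w hw R hR

end

section explicit
variable (K : Type) [Field K] [NumberField K] (d r e m : ℕ)

/-- `(x - 1) ⋯ (x - r)`. -/
noncomputable def linearFactors : (MvPolynomial (Fin (m + 1)) (𝓞 K))[X] :=
  ∏ j ∈ range r, (X - C (((j + 1 : ℕ) : MvPolynomial (Fin (m + 1)) (𝓞 K))))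

/-- `(x - 1) ⋯ (x - r) x ^ (d - r) + t₁²` (the variable `t₁` has the number `0`). -/
noncomputable def fixedPart : (MvPolynomial (Fin (m + 1)) (𝓞 K))[X] := linearFactors K r m * X ^ (d - r) + C (MvPolynomial.X 0 ^ 2)

/-- `(x - 1) ⋯ (x - r) x ^ a t ^ α` for `i = (a, α)` with `a < d - r` and `α_k ≤ e`. -/
noncomputable def variablePart (i : Fin (d - r) × (Fin (m + 1) → Fin (e + 1))) : (MvPolynomial (Fin (m + 1)) (𝓞 K))[X] :=
  linearFactors K r m * (X ^ (i.1 : ℕ) * C (∏ k, MvPolynomial.X k ^ (i.2 k : ℕ)))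

end explicit

/-- **Part 1.** Let `K` be a number field, `m ≥ 1`, `ω_1, ..., ω_g` generators of the group `𝓞 K` (for example an integral basis), `F₀`
a polynomial in `x` and `t = (t_1, ..., t_m)` over `𝓞 K` which is monic of odd degree in `x`, and `h_1, ..., h_D` polynomials of
smaller degree in `x`.  Suppose that for all but finitely many prime ideals `v` the `h_i` separate the points outside the base locus
over the residue field, and that the sum of the quadratic character of `F₀` over the base locus is `r q_v ^ m` up to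
`O(q_v ^ (m - 1 / 2))` (for example if the base locus consists of `r` sections over which `F₀` is a square).  Then `Holds`, for every
nonzero polynomial `Z`: the sums of `w(v) (𝔄_v + r) log(q_v)` for the fibrations `y² = F₀(t, x) + ∑ c_i h_i(t, x)` with
`c_i = ∑ ⌊P_(i,j)(s)⌋ ω_j` are `O(T ^ (1 / 2 + δ))` for all `y ≤ T ≤ N ^ κ` for almost all integers, and almost all primes, `s` in
`(N, 2 N]`.

**Part 2.** This is the case for the families `y² = (x - 1) ⋯ (x - r) (x ^ (d - r) + G_c(t, x)) + t₁²`, where `G_c` is the polynomial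
with all the monomials of degree less than `d - r` in `x` and at most `e` in each `t_k`, for odd `d ≥ r + 2` and `e ≥ 1`, which
have the sections `(j, t₁)`, `1 ≤ j ≤ r` (`E` is an enumeration of the monomials). -/
theorem result :
    (∀ (K : Type) [Field K] [NumberField K] (m D g : ℕ), 1 ≤ m → 1 ≤ D → ∀ ω : Fin g → 𝓞 K, Submodule.span ℤ (Set.range ω) = ⊤ →
      ∀ (F₀ : (MvPolynomial (Fin m) (𝓞 K))[X]) (h : Fin D → (MvPolynomial (Fin m) (𝓞 K))[X]),
      F₀.Monic → Odd F₀.natDegree → (∀ i, (h i).natDegree < F₀.natDegree) → ∀ (r C₀ : ℝ) (S : Set (HeightOneSpectrum (𝓞 K))), S.Finite →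
      (∀ v ∉ S, Separated v h) →
      (∀ v ∉ S, |coverPoints v F₀ h - basePoints v h - r * norm v ^ m| ≤ C₀ * (norm v ^ m / Real.sqrt (norm v))) →
      ∀ Z : MvPolynomial (Fin D) (𝓞 K), Z ≠ 0 → Holds ω F₀ h r Z) ∧
    (∀ (K : Type) [Field K] [NumberField K] (d r e m D g : ℕ), r + 2 ≤ d → Odd d → 1 ≤ e →
      ∀ ω : Fin g → 𝓞 K, Submodule.span ℤ (Set.range ω) = ⊤ → ∀ E : Fin D ≃ Fin (d - r) × (Fin (m + 1) → Fin (e + 1)),
      ∀ Z : MvPolynomial (Fin D) (𝓞 K), Z ≠ 0 → Holds ω (fixedPart K d r m) (fun i => variablePart K d r e m (E i)) r Z) := by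
  refine ⟨fun K _ _ m D g hm hD ω hω F₀ h hF ho hh r C₀ S hS hs hb Z hZ => holds_main hm hD ω hω F₀ h hF ho hh r C₀ S hS hs hb Z hZ,
    fun K _ _ d r e m D g hd ho he ω hω E Z hZ => ?_⟩
  have hD : 1 ≤ D := by
    have h1 : Fintype.card (Fin D) = Fintype.card (Fin (d - r) × (Fin (m + 1) → Fin (e + 1))) := Fintype.card_congr E
    rw [Fintype.card_fin, Fintype.card_prod, Fintype.card_fin] at h1
    rw [h1]
    exact Nat.one_le_iff_ne_zero.2 (Nat.mul_ne_zero (by omega) Fintype.card_ne_zero)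
  obtain ⟨h2, h3⟩ := Pool.Agent.N647.NG.Fe_deg (𝓞 K) d r m (by omega)
  refine holds_main (by omega) hD ω hω _ _ h2 ?_ (fun i => ?_) r r _ (Pool.Agent.N647.NG.finite_e r) (fun v _ => ?_) (fun v hv => ?_) Z hZ
  · rw [h3]
    exact ho
  · rw [h3]
    exact Pool.Agent.N647.NG.he_deg (𝓞 K) d r e m (by omega) (E i)
  · exact Pool.Agent.N647.NG.sepV_e d r e m D E hd he v
  · rw [Set.mem_union, not_or] at hv
    exact Pool.Agent.N647.NG.base_e d r e m D E hd v hv.1 hv.2

end Pool.Agent.Results.MP_1a0ddd_nt.ThinSequences
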