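import Pool.Agent.N184.NG.Stm

/-!
# The Tauberian Nagao conjecture for fibrations and the transcendental part of `H¹(U, R¹ f_* ℚ_l (1))`

Let `k` be a number field and `f : X → Y` a flat proper morphism of connected smooth projective
varieties over `k` with geometrically irreducible generic fibre, `K = k(Y)`, `m = dim Y`, and let `U ⊆ Y`
be the open set over which `f` is smooth. Let `W` be the part of weight `0` of
`H¹(U ⊗ ℚ̄, R¹ f_* ℚ_l (1))` (over `ℚ`: the sum of these spaces over the embeddings of `k`), with the
action of the absolute Galois group of `ℚ`. It contains the classes of the points of the Picard variety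
`P_X` over `K k̄`; let `W_tr` be the quotient of `W` by the space spanned by these classes. For an
elliptic surface it is the transcendental part of `H²(X)(1)`.

1. For every `f` and every `c`: `Σ_T(𝔄*) / T → - c` if and only if `(∑_{p ≤ T} tr(Frob_p | W) log p) / T`
   tends to `c`; and `Σ_T(𝔄*) / T → - (rank(P_X(K) / τB(k)) + c)` if and only if
   `(∑_{p ≤ T} tr(Frob_p | W_tr) log p) / T` tends to `c`. So the points of `P_X` contribute their rank,
   unconditionally, and Q1 for `f` is the statement that the average of the traces of Frobenius on
   `W_tr` is `0`. Tate's conjecture for `X` and `Y` is not needed.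
2. For every `f` and `ε > 0` the distance of `Σ_T(𝔄*) / T` from `- rank(P_X(K) / τB(k))` is at most
   `dim W_tr + ε` for all large `T`.
3. If `W_tr` and `W'_tr` have the same traces of Frobenius for almost all `p`, then Q1 for `f` is equivalent
   to Q1 for `f'`.
4. Q1 holds for all `f` for which `W_tr = 0`. By the theorem of Lefschetz on classes of type `(1, 1)` it
   suffices that `W` has no nonzero class of type `(1, -1)`; that is, that the holomorphic `2`-forms
   of `X` which vanish on the fibres come from `Y`.

Examples for (4), with `W = 0`: the universal families (smooth compactifications) of abelian varieties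
over Hilbert or Siegel modular varieties of dimension at least two, since there `H¹(U, R¹ f_* ℚ) = 0`.
Another one: families of curves in a fixed surface `S` with `p_g(S) = q(S) = 0`, that is the divisor
`X` of `Y × S` defined by a morphism from any smooth projective `Y` of dimension at least two to the
linear system of a very ample line bundle `L` on `S`, finite onto its image (and general, so that `X` is
smooth). Then `W` is `H²(S)(1)` modulo the class of `L`. In these examples `H²(X)` contains `H²(Y)`, for
which Tate's conjecture is not known.

Idea of the proof. Deligne's Weil II: only `H_c^{2m-1}(U, R¹ f_* ℚ_l)` contributes after the subtraction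
of the traces of `B`, modulo `O(q_v ^ (m - 1 / 2))`, and its part of weight `2 m` is dual to `W(m)`. The
primes of degree at least two do not contribute to the limit. The Galois group acts on the space
spanned by the classes of the points through a finite quotient, and the character is rational, hence
a rational combination of permutation characters; for these the average is computed with the prime
ideal theorem.
-/

set_option autoImplicit false

open NumberField Module Filter IsDedekindDomain
open Pool.Agent.H921R2.TatePole (nm)
open Pool.Agent.N184.NG
open Pool.Agent.N184.QP (CycleSpace HodgeSpace)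

namespace Pool.Agent.Results.MP_1a0ddd_nt.TranscendentalPart

/-- **The Tauberian Nagao conjecture is a statement on the transcendental part.** -/
theorem result :
    ∀ (k : Type) [Field k] [NumberField k] (W : Type) [AddCommGroup W] [Module ℂ W] [Module ℚ W]
      [FiniteDimensional ℂ W] (f : Fibration k W),
      (∀ T : ℝ, {v : HeightOneSpectrum (𝓞 k) | (nm v : ℝ) ≤ T}.Finite) ∧
      (∀ c : ℂ, HasMean f.Sigma (-c) ↔ f.MeanW c) ∧
      ∀ C : CycleSpace f.ρ,
        FiniteDimensional ℚ C.A ∧
        (∀ c : ℂ, HasMean f.Sigma (-(rk C + c)) ↔ f.MeanTr C c) ∧
        f.Close C ∧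
        (∀ (k' : Type) [Field k'] [NumberField k'] (W' : Type) [AddCommGroup W'] [Module ℂ W']
          [Module ℚ W'] [FiniteDimensional ℂ W'] (f' : Fibration k' W') (C' : CycleSpace f'.ρ)
          (T : Finset Nat.Primes), SameTr f C f' C' T → (f.Limit C ↔ f'.Limit C')) ∧
        (NoTr C → f.Limit C ∧ rk C = finrank ℂ f.ρ.invariants) := by
  intro k _ _ W _ _ _ _ f
  refine ⟨fun T => ?_, fun c => f.hasMean_iff c, fun C => ⟨?_, fun c => f.hasMean_tr C c,
    fun ε hε => f.bound_all C hε, ?_, ?_⟩⟩
  · refine (VU k ⌊T⌋₊).finite_toSet.subset fun v hv => ?_
    have hv' : (nm v : ℝ) ≤ T := hv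
    exact Finset.mem_coe.mpr (mem_VU.mpr (Nat.le_floor hv'))
  · obtain ⟨_, _, _, _, _, _, _, _, _, _, _, h⟩ := alg_data C
    exact h
  · intro k' _ _ W' _ _ _ _ f' C' T h
    exact hasMean_congr f C f' C' T h
  · intro h
    have h1 : algPart C = ⊤ := by
      rcases h with h | ⟨D, hD⟩
      · exact h
      · exact D.span_eq_top hD
    exact f.hasMean_alg C h1

end Pool.Agent.Results.MP_1a0ddd_nt.TranscendentalPart
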